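import Pool.Agent.E8helper92.FM.Few2

/-!
# Free subgroups and limits of minimal subshifts which are not met by few words

For a set `F` of forbidden words which contains all `aa`, `SF F` is the subshift, `GSF F` the group generated by the
local shifts `φ_a` and `FullSF F` its topological full group (starting files of this problem). No condition on the
entropy is made. The following definitions are those of the hand-in `LimitsOfMinimalH53`:

* `MinSub M`: `M` is a minimal subshift (nonempty, closed, shift invariant, without smaller such sets);
* `SameBlocks n M Y`: every word of length `n` of a point of `Y` occurs in every point of `M`;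
* `IsLimit Y`: `Y` is closed, invariant, not minimal, and for each `n` there is a minimal subset `M` of `Y` in which
  all words of length `n` of `Y` occur.

Further definitions:

* `OccIn w M`: the word `w` occurs in a point of `M`;
* `Meets m Y W`: every minimal subset `M` of `Y` in which all words of length `m` of `Y` occur contains a word of `W`;
* `numTypes F n`: the number of the sets `L_n(M)` of words of length `n` of `M`, for the minimal subsets `M` of `SF F`.

Idea of the proof. Let a free group act faithfully and let `Y` be minimal among the closed invariant sets on whose
lines (orbits) it acts faithfully (as in `LimitsOfMinimalH53`). Some `g' ≠ 1` is trivial on the lines of all points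
of `Y` which omit a word of length `m` of `Y`. The starting files give laws on nontrivial elements of norm at most
`l` which move every point of every action on the line of bounded displacement with probability at most
`exp (-C √l)`. So if `W` is a set of at most `exp (ε √n)` words of length `n` which meets the minimal subsets which
contain all words of length `m`, then there is `g ≠ 1` of norm `l` (a constant multiple of `n`) which fixes all
points of the line at distance at most `(2 l + C) r` of the occurrences of the words of `W`. A commutator of `g` and
a conjugate of `g'` is not trivial, has a barrier at each of these occurrences and is trivial on the points which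
omit a word of length `m`. So it has barriers in all minimal subsets of `Y`, hence, by compactness, in bounded gaps
on all lines, and has finite order, a contradiction.
-/

set_option autoImplicit false

namespace Pool.Agent.Results.MP_13a6c0_al.FewWordsLimitsH92

open Pool.Agent.Helper894.FS Pool.Agent.E8helper53.FM Pool.Agent.E8helper92.FM

/-- **Free subgroups of topological full groups and few words.** -/
theorem result {A : Type} [Finite A] (F : Set (List A)) (hF : ∀ a : A, [a, a] ∈ F) :
    -- 1. structure of the subshift if there is a free subgroup
    (HasFree (FullSF F) → ∃ Y ⊆ SF F, IsLimit Y ∧
      ∃ ε : ℝ, 0 < ε ∧ ∀ m : ℕ, ∃ n₀ : ℕ, ∀ n ≥ n₀, ∀ W : Finset (Fin n → A),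
        Meets m Y W → ε * Real.sqrt n < Real.log W.card) ∧
    -- 2. few words meet all minimal subsets
    ((∀ ε : ℝ, 0 < ε → ∀ n₀ : ℕ, ∃ n ≥ n₀, ∃ W : Finset (Fin n → A),
        (∀ M ⊆ SF F, MinSub M → ∃ w ∈ W, OccIn w M) ∧ Real.log W.card ≤ ε * Real.sqrt n) →
      ¬ HasFree (FullSF F) ∧ ¬ HasFree (GSF F)) ∧
    -- 3. the minimal subsets have few sets of words of length `n`
    ((∀ ε : ℝ, 0 < ε → ∀ n₀ : ℕ, ∃ n ≥ n₀, Real.log (numTypes F n) ≤ ε * Real.sqrt n) →
      ¬ HasFree (FullSF F) ∧ ¬ HasFree (GSF F)) :=
  ⟨structure3 hF, no_free_meets hF, no_free_types hF⟩

end Pool.Agent.Results.MP_13a6c0_al.FewWordsLimitsH92
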