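import Pool.Agent.E8helper53.FM.Fin

/-!
# Free subgroups of the topological full group force limits of minimal subshifts

`SF F` is the subshift with the set `F` of forbidden words, `sh k` the `k`-th power of the shift, `GSF F` the
group generated by the local shifts `φ_a`, `FullSF F` its topological full group, and `HasFree` says that a
subgroup contains a free group of rank two (all from the starting files of this problem). No condition on the
entropy or the complexity is made.

* `Cl Y`: the set `Y` of bi-infinite words is closed; `Inv Y`: it is invariant under the shift.
* `MinSub M`: `M` is a minimal subshift (nonempty, closed, invariant, without smaller such sets).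
* `SameBlocks n M Y`: every block of length `n` of a point of `Y` occurs in every point of `M`.
* `IsLimit Y`: `Y` is closed, invariant, not minimal, and for each `n` there is a minimal subset `M` of `Y` in
  which all blocks of length `n` of `Y` occur.
* `numBlocks Y n`: the number of blocks of length `n` of `Y`.
* `MinClosure S`: the closure of the union of the minimal subsets of `S`.

Idea of the proof. For a free subgroup let `Y` be minimal among the closed invariant subsets on whose lines
(orbits) it acts faithfully. On a proper closed invariant subset some nontrivial element acts trivially, and a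
commutator of conjugates of such elements acts trivially on finitely many of these subsets. A nontrivial element
`g` with barriers near all places of the lines of `Y` would have finite order, by compactness; so there is a
minimal subset `M` of `Y` without barriers of `g`. Taking for `g` an element which acts trivially on the points
of `Y` without one of the finitely many blocks of length `n` we see that these blocks all occur in `M`. `Y` is not
minimal because every action has barriers (starting files).
-/

set_option autoImplicit false

namespace Pool.Agent.Results.MP_13a6c0_al.LimitsOfMinimalH53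

open Pool.Agent.Helper894.FS Pool.Agent.E8helper53.FM

/-- Let `F` be a set of words over the finite alphabet `A` with all words `aa`.

(1) If the topological full group contains a nonabelian free group then there is a subset `Y` of the subshift
which is not minimal and a limit of minimal subsets (`IsLimit`), such that `log` of its complexity is at least
`ε √n` for all large `n`. It is uncountable, has infinitely many minimal subsets, and has a point `z` with dense
orbit which is in no minimal subshift.

(2) Let `E` be a finite set of minimal subsets. If for all `δ > 0` and `n₀` there is `n ≥ n₀` such that `log` of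
the complexity of all minimal subsets outside `E` is at most `δ √n` at `n`, then neither the topological full
group nor the group generated by the local shifts contains a nonabelian free group. (3) In particular this is so
if there are only finitely many minimal subsets (of arbitrary complexity).

(4) The same holds if the closure of the union of the minimal subsets is countable, in particular (5) if the
subshift is countable, and (6) if every point of the subshift is in a minimal subshift. -/
theorem result {A : Type} [Finite A] (F : Set (List A)) (hF : ∀ a : A, [a, a] ∈ F) :
    (HasFree (FullSF F) → ∃ Y ⊆ SF F, IsLimit Y ∧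
      (∃ ε : ℝ, 0 < ε ∧ ∃ n₀ : ℕ, ∀ n ≥ n₀, ε * Real.sqrt n < Real.log (numBlocks Y n)) ∧
      ¬ Y.Countable ∧ ¬ {M : Set (ℤ → A) | M ⊆ Y ∧ MinSub M}.Finite ∧
      ∃ z ∈ Y, (∀ n : ℕ, SameBlocks n {z} Y) ∧ ∀ M : Set (ℤ → A), MinSub M → z ∉ M) ∧
    (∀ E : Set (Set (ℤ → A)), E.Finite →
      (∀ δ : ℝ, 0 < δ → ∀ n₀ : ℕ, ∃ n ≥ n₀, ∀ M ⊆ SF F, MinSub M → M ∉ E →
        Real.log (numBlocks M n) ≤ δ * Real.sqrt n) →
      ¬ HasFree (FullSF F) ∧ ¬ HasFree (GSF F)) ∧
    ({M : Set (ℤ → A) | M ⊆ SF F ∧ MinSub M}.Finite → ¬ HasFree (FullSF F) ∧ ¬ HasFree (GSF F)) ∧
    ((MinClosure (SF F)).Countable → ¬ HasFree (FullSF F) ∧ ¬ HasFree (GSF F)) ∧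
    ((SF F).Countable → ¬ HasFree (FullSF F) ∧ ¬ HasFree (GSF F)) ∧
    ((∀ x ∈ SF F, ∃ M : Set (ℤ → A), MinSub M ∧ x ∈ M) →
      ¬ HasFree (FullSF F) ∧ ¬ HasFree (GSF F)) := by
  have hG : ¬ HasFree (FullSF F) → ¬ HasFree (FullSF F) ∧ ¬ HasFree (GSF F) := by
    intro h
    refine ⟨h, ?_⟩
    rintro ⟨f, hf, hK⟩
    exact h ⟨f, hf, fun g => GSF_le_FullSF F hF (hK g)⟩
  refine ⟨fun h => ?_, fun E hE h => hG (no_free_uniform hF E hE h), fun h => ?_,
    fun h => hG (no_free_countable hF h), fun h => ?_, fun h => hG (no_free_semisimple hF h)⟩
  · obtain ⟨Y, hYS, hL, hε⟩ := structure_thm hF h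
    exact ⟨Y, hYS, hL, hε, hL.uncountable, hL.infinite, hL.not_min⟩
  · refine hG (no_free_uniform hF _ h fun δ hδ n₀ => ⟨n₀, le_rfl, fun M hM hMm hn => ?_⟩)
    exact absurd ⟨hM, hMm⟩ hn
  · refine hG fun hfree => ?_
    obtain ⟨Y, hYS, hL, -⟩ := structure_thm hF hfree
    exact hL.uncountable (h.mono hYS)

end Pool.Agent.Results.MP_13a6c0_al.LimitsOfMinimalH53
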