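import Pool.Agent.E8helper53.FM.Fin2

/-!
# The topological full group of a tame subshift has no free subgroups

`SF F` is the subshift with the set `F` of forbidden words, `sh k` the `k`-th power of the shift, `GSF F` the
group generated by the local shifts `φ_a`, `FullSF F` its topological full group, and `HasFree` says that a
subgroup contains a free group of rank two (all from the starting files of this problem).

* `Cl Y`: the set `Y` of bi-infinite words is closed; `MinSub M`: `M` is a minimal subshift.
* `MinClosure S`: the closure of the union of the minimal subsets of `S`.
* `OrbCl z`: the closure of the orbit of `z` under the shift.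
* `Occ v x k`: the word `v` occurs in `x` at the place `k`.
* `Tame S`: no two disjoint closed sets have an infinite independence set in `S` (Kerr and Li), that is, `S` is a tame
  subshift.

Idea of the proof. By the structure theorem of `MP_13a6c0_al.LimitsOfMinimalH53` a free subgroup of the topological full
group forces a subshift `Y` which is not minimal and has a dense orbit, such that for each `n` all words of length `n`
of `Y` occur in one minimal subset of `Y`. Let `v` be a word of `Y` which does not occur in some point `x₀` of `Y`, and
let `z` have dense orbit. Let all patterns on a finite set `J` of places be realized in `z` at some places, within a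
window of `z`. This window recurs with bounded gaps in a minimal subset, and `z` contains arbitrarily long blocks of
`x₀`, so that there is a number `j` such that the window occurs in `z` at two places of distance `j`, while there is no
`v` in `z` at distance `j` from its original place. This gives all patterns on `J ∪ {j}`.
-/

set_option autoImplicit false

namespace Pool.Agent.Results.MP_13a6c0_al.TameH53

open Pool.Agent.Helper894.FS Pool.Agent.E8helper53.FM

/-- Let `F` be a set of words over the finite alphabet `A` with all words `aa`.

(1) If the topological full group contains a nonabelian free group then there is a point `z`, in the closure of the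
union of the minimal subsets of the subshift, whose orbit closure has infinitely many minimal subsets and an infinite
independence set: there are a word `v` and an infinite set `J` of places such that for each subset `I` of `J` there is
a point in the orbit closure in which `v` occurs at the places in `I` and not at the other places in `J`.

(2) If each orbit closure in the closure of the union of the minimal subsets is tame or has only finitely many
minimal subsets, then neither the topological full group nor the group generated by the local shifts contains a
nonabelian free group. This holds in particular (3) if the closure of the union of the minimal subsets is tame, and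
(4) if the subshift is tame. -/
theorem result {A : Type} [Finite A] (F : Set (List A)) (hF : ∀ a : A, [a, a] ∈ F) :
    (HasFree (FullSF F) → ∃ z ∈ MinClosure (SF F),
      ¬ {M : Set (ℤ → A) | M ⊆ OrbCl z ∧ MinSub M}.Finite ∧
      ∃ (n : ℕ) (v : Fin n → A) (J : Set ℤ), J.Infinite ∧
        ∀ I ⊆ J, ∃ x ∈ OrbCl z, ∀ j ∈ J, (Occ v x j ↔ j ∈ I)) ∧
    ((∀ z ∈ MinClosure (SF F), Tame (OrbCl z) ∨ {M : Set (ℤ → A) | M ⊆ OrbCl z ∧ MinSub M}.Finite) →
      ¬ HasFree (FullSF F) ∧ ¬ HasFree (GSF F)) ∧
    (Tame (MinClosure (SF F)) → ¬ HasFree (FullSF F) ∧ ¬ HasFree (GSF F)) ∧
    (Tame (SF F) → ¬ HasFree (FullSF F) ∧ ¬ HasFree (GSF F)) := by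
  have hG : ¬ HasFree (FullSF F) → ¬ HasFree (FullSF F) ∧ ¬ HasFree (GSF F) := by
    intro h
    refine ⟨h, ?_⟩
    rintro ⟨f, hf, hK⟩
    exact h ⟨f, hf, fun g => GSF_le_FullSF F hF (hK g)⟩
  exact ⟨not_tame_of_free hF, fun h => hG (no_free_orbits hF h), fun h => hG (no_free_tame hF h),
    fun h => hG (no_free_tame hF (h.mono (minClosure_sub (cl_SF F))))⟩

end Pool.Agent.Results.MP_13a6c0_al.TameH53
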